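import Mathlib

namespace Pool.Agent.P.MP_a42607_nt

open Finset Polynomial

/-- Horner evaluation in base `2 ^ 64`, most significant digit first. -/
noncomputable def hor (f : ℕ → ℕ) (n : ℕ) : ℕ :=
  Nat.rec 0 (fun i acc => Nat.add (Nat.shiftLeft acc 64) (f i)) n

theorem hor_eq (f : ℕ → ℕ) (n : ℕ) :
    hor f n = ∑ i ∈ range n, f i * (2 ^ 64) ^ (n - 1 - i) := by
  induction n with
  | zero => rfl
  | succ n ih =>
    have : hor f (n + 1) = hor f n * 2 ^ 64 + f n := by
      change Nat.shiftLeft (hor f n) 64 + f n = _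
      rw [show Nat.shiftLeft (hor f n) 64 = hor f n <<< 64 from rfl, Nat.shiftLeft_eq]
    rw [this, ih, sum_range_succ, sum_mul]
    congr 1
    · refine sum_congr rfl fun i hi => ?_
      have := mem_range.1 hi
      rw [show n + 1 - 1 - i = (n - 1 - i) + 1 by omega, pow_succ _ (n - 1 - i), mul_assoc]
    · simp

theorem hor_rev (f : ℕ → ℕ) (n : ℕ) :
    hor (fun i => f (Nat.sub (Nat.sub n 1) i)) n = ∑ i ∈ range n, f i * (2 ^ 64) ^ i := by
  rw [hor_eq]
  exact sum_range_reflect (fun i => f i * (2 ^ 64) ^ i) n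

/-- The base `2 ^ 64` digit. -/
noncomputable def dec (N s : ℕ) : ℕ :=
  Nat.land (Nat.shiftRight N (Nat.mul 64 s)) 18446744073709551615

theorem dec_eq (N s : ℕ) : dec N s = N / (2 ^ 64) ^ s % 2 ^ 64 := by
  change (N >>> (64 * s)) &&& (2 ^ 64 - 1) = _
  rw [Nat.and_two_pow_sub_one_eq_mod, Nat.shiftRight_eq_div_pow, pow_mul]

theorem digit_sum (B : ℕ) (hB : 0 < B) (f : ℕ → ℕ) (n : ℕ) (hf : ∀ i < n, f i < B) :
    ∑ i ∈ range n, f i * B ^ i < B ^ n ∧
      ∀ s < n, (∑ i ∈ range n, f i * B ^ i) / B ^ s % B = f s := by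
  induction n with
  | zero => simp
  | succ n ih =>
    obtain ⟨h1, h2⟩ := ih fun i hi => hf i (by omega)
    have h3 := hf n (by omega)
    have hp : 0 < B ^ n := pow_pos hB n
    rw [sum_range_succ]
    refine ⟨?_, fun s hs => ?_⟩
    · rw [pow_succ]; nlinarith
    · rcases Nat.lt_succ_iff_lt_or_eq.1 hs with h | rfl
      · obtain ⟨r, rfl⟩ := Nat.exists_eq_add_of_lt h
        have e : f (s + r + 1) * B ^ (s + r + 1) = B ^ s * (B * (f (s + r + 1) * B ^ r)) := by ring
        rw [e, Nat.add_mul_div_left _ _ (pow_pos hB s), Nat.add_mul_mod_self_left]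
        exact h2 s h
      · rw [Nat.add_mul_div_right _ _ hp, Nat.div_eq_of_lt h1, zero_add, Nat.mod_eq_of_lt h3]

/-- `N` is the value at `2 ^ 64` of an integer polynomial of degree at most `d`, with
coefficients bounded by `M`, that computes the function `F`. -/
def Rep (N : ℤ) (F : ℂ → ℂ) (d : ℕ) (M : ℤ) : Prop :=
  ∃ p : ℤ[X], p.eval (2 ^ 64) = N ∧ (∀ z, aeval z p = F z) ∧ p.natDegree ≤ d ∧ ∀ i, |p.coeff i| ≤ M

theorem Rep.add {N N' F F' d M M'} (h : Rep N F d M) (h' : Rep N' F' d M') :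
    Rep (N + N') (fun z => F z + F' z) d (M + M') := by
  obtain ⟨p, a, b, c, e⟩ := h
  obtain ⟨p', a', b', c', e'⟩ := h'
  refine ⟨p + p', by simp [a, a', -Nat.reducePow, -Int.reducePow], fun z => by simp [b, b'],
    natDegree_add_le_of_degree_le c c', fun i => ?_⟩
  rw [coeff_add]; exact (abs_add_le _ _).trans (add_le_add (e i) (e' i))

theorem Rep.sub {N N' F F' d M M'} (h : Rep N F d M) (h' : Rep N' F' d M') :
    Rep (N - N') (fun z => F z - F' z) d (M + M') := by
  obtain ⟨p, a, b, c, e⟩ := h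
  obtain ⟨p', a', b', c', e'⟩ := h'
  refine ⟨p - p', by rw [eval_sub, a, a'], fun z => by simp [b, b'],
    (natDegree_sub_le _ _).trans (max_le c c'), fun i => ?_⟩
  rw [coeff_sub]; exact (abs_sub _ _).trans (add_le_add (e i) (e' i))

theorem Rep.mul {N N' F F' d M} (h : Rep N F d M) (h' : Rep N' F' d M) :
    Rep (N * N') (fun z => F z * F' z) (d + d) ((2 * d + 1) * (M * M)) := by
  obtain ⟨p, a, b, c, e⟩ := h
  obtain ⟨p', a', b', c', e'⟩ := h'
  have hd : (p * p').natDegree ≤ d + d := natDegree_mul_le.trans (add_le_add c c')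
  have hM : 0 ≤ M := (abs_nonneg _).trans (e 0)
  refine ⟨p * p', by rw [eval_mul, a, a'], fun z => by simp [b, b'], hd, fun i => ?_⟩
  by_cases hi : i ≤ d + d
  · rw [coeff_mul]
    calc _ ≤ ∑ x ∈ antidiagonal i, |p.coeff x.1 * p'.coeff x.2| := abs_sum_le_sum_abs _ _
      _ ≤ ∑ _x ∈ antidiagonal i, M * M := sum_le_sum fun x _ => by
          rw [abs_mul]; exact mul_le_mul (e _) (e' _) (abs_nonneg _) hM
      _ = (i + 1 : ℕ) * (M * M) := by simp
      _ ≤ _ := by
          apply mul_le_mul_of_nonneg_right _ (mul_nonneg hM hM)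
          push_cast; omega
  · rw [coeff_eq_zero_of_natDegree_lt (by omega)]
    simp only [abs_zero]; positivity

theorem Rep.tw {N F d M} (h : Rep N F d M) :
    Rep (N * 340282366920938463463374607431768211455) (fun z => F z * (z ^ 2 - 1)) (d + 2)
      (M + M) := by
  obtain ⟨p, a, b, c, e⟩ := h
  refine ⟨p * X ^ 2 - p, ?_, fun z => by simp [b]; ring, ?_, fun i => ?_⟩
  · rw [eval_sub, eval_mul, a, eval_pow, eval_X]; ring
  · refine (natDegree_sub_le _ _).trans (max_le ?_ (by omega))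
    exact natDegree_mul_le.trans (add_le_add c (by simp))
  · rw [coeff_sub, coeff_mul_X_pow']
    refine (abs_sub _ _).trans (add_le_add ?_ (e i))
    split_ifs
    · exact e _
    · simpa using (abs_nonneg _).trans (e 0)

theorem Rep.mono {N F d M d' M'} (h : Rep N F d M) (hd : d ≤ d') (hM : M ≤ M') :
    Rep N F d' M' := by
  obtain ⟨p, a, b, c, e⟩ := h
  exact ⟨p, a, b, c.trans hd, fun i => (e i).trans hM⟩

theorem rep_gen (a : ℕ → ℤ) (σ : ℕ → ℕ) (n : ℕ) (M : ℤ) (hM : 0 ≤ M) (ha : ∀ i, |a i| ≤ M)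
    (hσ : ∀ i < n + 1, σ i ≤ n) (hi : Set.InjOn σ (range (n + 1))) :
    Rep (∑ i ∈ range (n + 1), a i * (2 ^ 64) ^ σ i)
      (fun z => ∑ i ∈ range (n + 1), (a i : ℂ) * z ^ σ i) n M := by
  refine ⟨∑ i ∈ range (n + 1), monomial (σ i) (a i), ?_, fun z => ?_, ?_, fun s => ?_⟩
  · rw [eval_finsetSum]; simp only [eval_monomial]
  · rw [map_sum]; simp [aeval_monomial]
  · refine natDegree_sum_le_of_forall_le _ _ fun i h => ?_
    exact (natDegree_monomial_le _).trans (hσ i (mem_range.1 h))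
  · rw [finsetSum_coeff]
    simp only [coeff_monomial]
    by_cases h : ∃ i ∈ range (n + 1), σ i = s
    · obtain ⟨i, h1, h2⟩ := h
      rw [sum_eq_single i]
      · rw [if_pos h2]; exact ha i
      · intro j hj hji
        rw [if_neg]
        intro h3
        exact hji (hi (mem_coe.2 hj) (mem_coe.2 h1) (h3.trans h2.symm))
      · intro h; exact absurd h1 h
    · rw [sum_eq_zero]
      · simpa using hM
      · intro i h1
        rw [if_neg]
        intro h3; exact h ⟨i, h1, h3⟩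

/-- Offset making all base `2 ^ 64` digits nonnegative. -/
noncomputable def enc (N : ℤ) (d : ℕ) : ℕ :=
  Int.toNat (Int.add N (Int.ofNat (hor (fun _ => 9223372036854775808) (Nat.succ d))))

theorem Rep.decode {N F d} (h : Rep N F d (2 ^ 62)) (z : ℂ) :
    F z = ∑ s ∈ range (d + 1), ((dec (enc N d) s : ℂ) - 2 ^ 63) * z ^ s := by
  obtain ⟨p, a, b, c, e⟩ := h
  set f : ℕ → ℕ := fun i => (p.coeff i + 2 ^ 63).toNat with hf
  have hf1 : ∀ i, (f i : ℤ) = p.coeff i + 2 ^ 63 := fun i => by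
    have := abs_le.1 (e i)
    simp only [hf]; omega
  have h1 : enc N d = ∑ i ∈ range (d + 1), f i * (2 ^ 64) ^ i := by
    have h2 : hor (fun _ => 9223372036854775808) (Nat.succ d) =
        ∑ i ∈ range (d + 1), 9223372036854775808 * (2 ^ 64) ^ i :=
      hor_rev (fun _ => 9223372036854775808) (d + 1)
    change (N + (hor (fun _ => 9223372036854775808) (Nat.succ d) : ℕ)).toNat = _
    rw [h2, ← a, eval_eq_sum_range' (n := d + 1) (by omega)]
    apply Int.natCast_inj.1
    have h3 : ∑ i ∈ range (d + 1), p.coeff i * (2 ^ 64) ^ i +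
        ((∑ i ∈ range (d + 1), 9223372036854775808 * (2 ^ 64) ^ i : ℕ) : ℤ) =
        ((∑ i ∈ range (d + 1), f i * (2 ^ 64) ^ i : ℕ) : ℤ) := by
      rw [Nat.cast_sum, Nat.cast_sum, ← sum_add_distrib]
      refine sum_congr rfl fun i _ => ?_
      rw [Nat.cast_mul, Nat.cast_mul, hf1, Nat.cast_pow, Nat.cast_pow]
      norm_num; ring
    rw [h3, Int.toNat_natCast]
  have h4 := (digit_sum (2 ^ 64) (by norm_num) f (d + 1) fun i _ => by
    have := abs_le.1 (e i); have := hf1 i; omega).2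
  rw [← b, aeval_eq_sum_range' (n := d + 1) (by omega)]
  refine sum_congr rfl fun s hs => ?_
  rw [dec_eq, h1, h4 s (mem_range.1 hs), zsmul_eq_mul]
  congr 1
  have : ((f s : ℤ) : ℂ) = ((p.coeff s + 2 ^ 63 : ℤ) : ℂ) := by rw [hf1]
  push_cast at this
  rw [this]; ring

/-- Twenty-bit data digits. -/
noncomputable def dg (x o i : ℕ) : ℕ :=
  Nat.land (Nat.shiftRight x (Nat.add (Nat.mul 144 i) o)) 1048575

theorem dg_le (x o i : ℕ) : dg x o i ≤ 1048575 := Nat.and_le_right

/-- Signed coefficient. -/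
noncomputable def cf (x o i : ℕ) : ℤ := (dg x o i : ℤ) - 524288

noncomputable def kU (x o n : ℕ) : ℤ :=
  Int.subNatNat (hor (fun i => dg x o (Nat.sub (Nat.sub (Nat.succ n) 1) i)) (Nat.succ n))
    (hor (fun _ => 524288) (Nat.succ n))

noncomputable def kR (x o n : ℕ) : ℤ :=
  Int.subNatNat (hor (dg x o) (Nat.succ n)) (hor (fun _ => 524288) (Nat.succ n))

theorem cf_le (x o i : ℕ) : |cf x o i| ≤ 524288 := by
  have := dg_le x o i
  rw [abs_le]; unfold cf; omega

theorem rep_kU (x o n : ℕ) :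
    Rep (kU x o n) (fun z => ∑ i ∈ range (n + 1), (cf x o i : ℂ) * z ^ i) n 524288 := by
  have h := rep_gen (cf x o) id n 524288 (by norm_num) (cf_le x o) (fun i hi => by
    simp only [id]; omega) (fun _ _ _ _ h => h)
  have e : kU x o n = ∑ i ∈ range (n + 1), cf x o i * (2 ^ 64) ^ i := by
    unfold kU
    rw [Int.subNatNat_eq_coe, hor_rev (dg x o) (n + 1)]
    have h2 : hor (fun _ => 524288) (Nat.succ n) =
        ∑ i ∈ range (n + 1), 524288 * (2 ^ 64) ^ i := hor_rev (fun _ => 524288) (n + 1)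
    rw [h2, Nat.cast_sum, Nat.cast_sum, ← sum_sub_distrib]
    refine sum_congr rfl fun i _ => ?_
    unfold cf
    rw [Nat.cast_mul, Nat.cast_mul, Nat.cast_pow, Nat.cast_pow]
    norm_num; ring
  rw [e]; exact h

theorem rep_kR (x o n : ℕ) :
    Rep (kR x o n) (fun z => ∑ i ∈ range (n + 1), (cf x o i : ℂ) * z ^ (n - i)) n 524288 := by
  have h := rep_gen (cf x o) (fun i => n - i) n 524288 (by norm_num) (cf_le x o)
    (fun i hi => by omega) (fun a ha b hb h => by
      have := mem_range.1 (mem_coe.1 ha); have := mem_range.1 (mem_coe.1 hb)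
      simp only at h; omega)
  have e : kR x o n = ∑ i ∈ range (n + 1), cf x o i * (2 ^ 64) ^ (n - i) := by
    unfold kR
    rw [Int.subNatNat_eq_coe, hor_eq, hor_eq, Nat.cast_sum, Nat.cast_sum, ← sum_sub_distrib]
    refine sum_congr rfl fun i _ => ?_
    unfold cf
    rw [Nat.cast_mul, Nat.cast_mul, Nat.cast_pow, Nat.cast_pow]
    norm_num; ring
  rw [e]; exact h

/-- Kronecker value of the real part of the squared modulus. -/
noncomputable def kT (x o n : ℕ) : ℤ :=
  Int.add (Int.mul (kU x o n) (kR x o n)) (Int.mul (kU x (Nat.add o 20) n) (kR x (Nat.add o 20) n))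

/-- Kronecker value of the imaginary part of the squared modulus. -/
noncomputable def kS (x o n : ℕ) : ℤ :=
  Int.sub (Int.mul (kU x (Nat.add o 20) n) (kR x o n)) (Int.mul (kU x o n) (kR x (Nat.add o 20) n))

theorem sq_rep (x o n : ℕ) (hn : n ≤ 128) : ∃ T S : ℂ → ℂ,
    Rep (kT x o n) T (n + n) (2 ^ 48) ∧ Rep (kS x o n) S (n + n) (2 ^ 48) ∧
      ∀ φ : ℝ, ∃ r : ℝ, 0 ≤ r ∧
        T (Complex.exp (φ * Complex.I)) + Complex.I * S (Complex.exp (φ * Complex.I)) =
          Complex.exp (φ * Complex.I) ^ n * r := by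
  have hn' : (n : ℤ) ≤ 128 := by exact_mod_cast hn
  refine ⟨_, _, (((rep_kU x o n).mul (rep_kR x o n)).add
      ((rep_kU x (o + 20) n).mul (rep_kR x (o + 20) n))).mono le_rfl (by omega),
    (((rep_kU x (o + 20) n).mul (rep_kR x o n)).sub
      ((rep_kU x o n).mul (rep_kR x (o + 20) n))).mono le_rfl (by omega), fun φ => ?_⟩
  set z := Complex.exp (φ * Complex.I) with hz
  have hc : z * (starRingEnd ℂ) z = 1 := by
    rw [Complex.mul_conj, Complex.normSq_eq_norm_sq, hz, Complex.norm_exp_ofReal_mul_I]; simp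
  have key : ∀ a : ℕ → ℤ, ∑ i ∈ range (n + 1), (a i : ℂ) * z ^ (n - i) =
      z ^ n * (starRingEnd ℂ) (∑ i ∈ range (n + 1), (a i : ℂ) * z ^ i) := by
    intro a
    rw [map_sum, mul_sum]
    refine sum_congr rfl fun i hi => ?_
    obtain ⟨r, rfl⟩ := Nat.exists_eq_add_of_le (Nat.lt_succ_iff.1 (mem_range.1 hi))
    rw [Nat.add_sub_cancel_left, map_mul, map_pow, map_intCast]
    calc (a i : ℂ) * z ^ r = a i * z ^ r * (z * (starRingEnd ℂ) z) ^ i := by rw [hc]; simp
      _ = _ := by rw [mul_pow]; ring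
  simp only [key]
  set A := ∑ i ∈ range (n + 1), (cf x o i : ℂ) * z ^ i
  set B := ∑ i ∈ range (n + 1), (cf x (o + 20) i : ℂ) * z ^ i
  refine ⟨Complex.normSq (A + Complex.I * B), Complex.normSq_nonneg _, ?_⟩
  rw [← Complex.mul_conj, map_add, map_mul, Complex.conj_I]
  linear_combination (z ^ n * B * (starRingEnd ℂ) B) * Complex.I_sq

theorem fold_sum (f : ℕ → ℝ) (J : ℕ) :
    ∑ s ∈ range (J + J + 1), f s = f J + ∑ j ∈ range J, (f (J + (j + 1)) + f (J - (j + 1))) := by
  rw [show J + J + 1 = (J + 1) + J by omega, sum_range_add, sum_range_succ, sum_add_distrib,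
    ← sum_range_reflect f J]
  have e1 : ∑ j ∈ range J, f (J - 1 - j) = ∑ j ∈ range J, f (J - (j + 1)) :=
    sum_congr rfl fun j _ => by congr 1; omega
  have e2 : ∑ j ∈ range J, f (J + 1 + j) = ∑ j ∈ range J, f (J + (j + 1)) :=
    sum_congr rfl fun j _ => by congr 1; omega
  rw [e1, e2]; ring

theorem fold_rep {NT NS T S J} (hT : Rep NT T (J + J) (2 ^ 62)) (hS : Rep NS S (J + J) (2 ^ 62))
    (φ r : ℝ) (h : T (Complex.exp (φ * Complex.I)) + Complex.I * S (Complex.exp (φ * Complex.I)) =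
      Complex.exp (φ * Complex.I) ^ J * r) :
    r = ((dec (enc NT (J + J)) J : ℝ) - 2 ^ 63) + ∑ j ∈ range J,
      (((dec (enc NT (J + J)) (J + (j + 1)) : ℝ) + dec (enc NT (J + J)) (J - (j + 1)) - 2 ^ 64) *
          Real.cos ((j + 1 : ℕ) * φ) -
        ((dec (enc NS (J + J)) (J + (j + 1)) : ℝ) - dec (enc NS (J + J)) (J - (j + 1))) *
          Real.sin ((j + 1 : ℕ) * φ)) := by
  rw [hT.decode, hS.decode, mul_sum, ← sum_add_distrib] at h
  set t : ℕ → ℝ := fun s => (dec (enc NT (J + J)) s : ℝ) - 2 ^ 63 with ht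
  set u : ℕ → ℝ := fun s => (dec (enc NS (J + J)) s : ℝ) - 2 ^ 63 with hu
  have h1 : (r : ℂ) = ∑ s ∈ range (J + J + 1), ((t s : ℂ) + Complex.I * u s) *
      Complex.exp (((((s : ℝ) - J) * φ : ℝ) : ℂ) * Complex.I) := by
    have hz : Complex.exp (φ * Complex.I) ^ J ≠ 0 := pow_ne_zero _ (Complex.exp_ne_zero _)
    apply mul_left_cancel₀ hz
    rw [← h, mul_sum]
    refine sum_congr rfl fun s _ => ?_
    have : Complex.exp (φ * Complex.I) ^ s = Complex.exp (φ * Complex.I) ^ J *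
        Complex.exp (((((s : ℝ) - J) * φ : ℝ) : ℂ) * Complex.I) := by
      rw [← Complex.exp_nat_mul, ← Complex.exp_nat_mul, ← Complex.exp_add]
      congr 1; push_cast; ring
    rw [this]; simp only [ht, hu]; push_cast; ring
  have h2 : r = ∑ s ∈ range (J + J + 1), (t s * Real.cos (((s : ℝ) - J) * φ) -
      u s * Real.sin (((s : ℝ) - J) * φ)) := by
    have := congrArg Complex.re h1
    rw [Complex.ofReal_re, Complex.re_sum] at this
    rw [this]
    refine sum_congr rfl fun s _ => ?_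
    rw [Complex.mul_re, Complex.exp_ofReal_mul_I_re, Complex.exp_ofReal_mul_I_im]
    simp
  rw [h2, fold_sum]
  congr 1
  · simp [ht]
  · refine sum_congr rfl fun j hj => ?_
    have hj' := mem_range.1 hj
    have e1 : (((J + (j + 1) : ℕ) : ℝ) - J) * φ = (j + 1 : ℕ) * φ := by push_cast; ring
    have e2 : (((J - (j + 1) : ℕ) : ℝ) - J) * φ = -((j + 1 : ℕ) * φ) := by
      rw [Nat.cast_sub (by omega)]; push_cast; ring
    rw [e1, e2, Real.cos_neg, Real.sin_neg]
    simp only [ht, hu]; ring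

/-- Kronecker values for the polynomial nonnegative on the upper half circle. -/
noncomputable def kUR (x n : ℕ) : ℤ :=
  Int.add (kT x 40 (Nat.succ n)) (Int.mul (kS x 80 n) 340282366920938463463374607431768211455)

noncomputable def kUI (x n : ℕ) : ℤ :=
  Int.sub (kS x 40 (Nat.succ n)) (Int.mul (kT x 80 n) 340282366920938463463374607431768211455)

theorem half_rep (x n : ℕ) (hn : n + 1 ≤ 128) : ∃ T S : ℂ → ℂ,
    Rep (kUR x n) T ((n + 1) + (n + 1)) (2 ^ 62) ∧ Rep (kUI x n) S ((n + 1) + (n + 1)) (2 ^ 62) ∧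
      ∀ φ : ℝ, 0 ≤ Real.sin φ → ∃ r : ℝ, 0 ≤ r ∧
        T (Complex.exp (φ * Complex.I)) + Complex.I * S (Complex.exp (φ * Complex.I)) =
          Complex.exp (φ * Complex.I) ^ (n + 1) * r := by
  obtain ⟨T0, S0, a0, b0, c0⟩ := sq_rep x 40 (n + 1) hn
  obtain ⟨T1, S1, a1, b1, c1⟩ := sq_rep x 80 n (by omega)
  refine ⟨_, _, (a0.add (b1.tw.mono (by omega) le_rfl)).mono le_rfl (by norm_num),
    (b0.sub (a1.tw.mono (by omega) le_rfl)).mono le_rfl (by norm_num), fun φ hφ => ?_⟩
  obtain ⟨r0, h0, e0⟩ := c0 φ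
  obtain ⟨r1, h1, e1⟩ := c1 φ
  refine ⟨r0 + 2 * Real.sin φ * r1, by positivity, ?_⟩
  have hz : Complex.exp (φ * Complex.I) ^ 2 - 1 =
      Complex.I * Complex.exp (φ * Complex.I) * (2 * Real.sin φ) := by
    rw [Complex.exp_mul_I, Complex.ofReal_sin]
    have := Complex.sin_sq_add_cos_sq (φ : ℂ)
    linear_combination this - Complex.sin φ ^ 2 * Complex.I_sq
  set z := Complex.exp (φ * Complex.I)
  simp only [hz]
  push_cast at *
  linear_combination e0 + (z * (2 * Complex.sin φ)) * e1 -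
    (T1 z * z * (2 * Complex.sin φ)) * Complex.I_sq

end Pool.Agent.P.MP_a42607_nt
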