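import Pool.Agent.P.MP_a42607_nt.Mom
import Pool.Agent.P.MP_a42607_nt.Kron

namespace Pool.Agent.P.MP_a42607_nt

open Finset

noncomputable def sumN (f : ℕ → ℕ) (n : ℕ) : ℕ := Nat.rec 0 (fun i acc => Nat.add acc (f (Nat.succ i))) n
noncomputable def sumZ (f : ℕ → ℤ) (n : ℕ) : ℤ :=
  Nat.rec (Int.ofNat 0) (fun i acc => Int.add acc (f (Nat.succ i))) n
noncomputable def allB (f : ℕ → Bool) (n : ℕ) : Bool :=
  Nat.rec true (fun i acc => cond (f (Nat.succ i)) acc false) n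

theorem cond_imp (a b : Bool) (h : cond a b false = true) : a = true ∧ b = true := by
  cases a
  · exact absurd h Bool.false_ne_true
  · exact ⟨rfl, h⟩

theorem sumN_eq (f : ℕ → ℕ) (n : ℕ) : sumN f n = ∑ i ∈ range n, f (i + 1) := by
  induction n with
  | zero => rfl
  | succ n ih => rw [sum_range_succ, ← ih]; rfl

theorem sumZ_eq (f : ℕ → ℤ) (n : ℕ) : sumZ f n = ∑ i ∈ range n, f (i + 1) := by
  induction n with
  | zero => rfl
  | succ n ih => rw [sum_range_succ, ← ih]; rfl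

theorem allB_eq (f : ℕ → Bool) (n : ℕ) (h : allB f n = true) : ∀ i < n, f (i + 1) = true := by
  induction n with
  | zero => intro i hi; omega
  | succ n ih =>
    obtain ⟨h2, h1⟩ := cond_imp (f (n + 1)) (allB f n) h
    intro i hi
    rcases Nat.lt_succ_iff_lt_or_eq.1 hi with h | rfl
    · exact ih h1 i h
    · exact h2

/-- Current box of a variable (bounds shifted by 1024). -/
noncomputable def look (cs : List (ℕ × ℕ × ℕ)) (v : ℕ) : ℕ × ℕ :=
  List.rec (0, 2048) (fun h _ ih => cond (Nat.beq h.1 v) h.2 ih) cs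

noncomputable def mg (mu v r : ℕ) : ℕ :=
  Nat.land (Nat.shiftRight mu (Nat.add (Nat.mul 96 (Nat.sub v 2)) r)) 4294967295

noncomputable def adjL (mu v : ℕ) : ℕ := cond (Nat.ble v 29) (Nat.mul (mg mu v 0) 1048576) 0

noncomputable def adjX (cs : List (ℕ × ℕ × ℕ)) (mu v : ℕ) : ℤ :=
  cond (Nat.ble v 29) (Int.subNatNat
    (Nat.mul (Nat.add (Nat.mul (mg mu v 0) (Nat.add (look cs v).1 (look cs v).2)) (mg mu v 32)) 1024)
    (Nat.mul (Nat.add (Nat.mul (mg mu v 0) 2048) (mg mu v 64)) 1024)) (Int.ofNat 0)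

noncomputable def adjM (cs : List (ℕ × ℕ × ℕ)) (mu v : ℕ) : ℤ :=
  cond (Nat.ble v 29) (Int.subNatNat
    (Nat.add (Nat.add (Nat.mul (mg mu v 0) (Nat.add (Nat.mul (look cs v).1 (look cs v).2) 1048576))
      (Nat.mul (mg mu v 32) (look cs v).1)) (Nat.mul (mg mu v 64) 1024))
    (Nat.add (Nat.add (Nat.mul (Nat.mul (mg mu v 0) (Nat.add (look cs v).1 (look cs v).2)) 1024)
      (Nat.mul (mg mu v 32) 1024)) (Nat.mul (mg mu v 64) (look cs v).2))) (Int.ofNat 0)

noncomputable def kk (x j : ℕ) : ℕ :=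
  Nat.mul (Nat.land (Nat.shiftRight x (Nat.add (Nat.mul 144 j) 120)) 16777215) 4096

noncomputable def dP (T J j : ℕ) : ℕ := Nat.add (dec T (Nat.add J j)) (dec T (Nat.sub J j))
noncomputable def dM (T J j : ℕ) : ℤ := Int.subNatNat (dec T (Nat.sub J j)) (dec T (Nat.add J j))

noncomputable def aN (x mu T J j : ℕ) : ℕ :=
  Nat.sub (Nat.add (Nat.add (kk x j) (adjL mu (Nat.mul 2 j))) (dP T J j)) 18446744073709551616
noncomputable def bN (x mu T J j : ℕ) : ℕ :=
  Nat.sub (Nat.add (Nat.add (kk x j) (adjL mu (Nat.succ (Nat.mul 2 j)))) 18446744073709551616)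
    (dP T J j)
noncomputable def e2 (S J j : ℕ) : ℕ := Nat.mul (Int.natAbs (dM S J j)) (Int.natAbs (dM S J j))
noncomputable def v1 (cs : List (ℕ × ℕ × ℕ)) (mu U J j : ℕ) : ℤ :=
  Int.add (Int.subNatNat (dP U J j) 18446744073709551616) (adjX cs mu (Nat.mul 2 j))
noncomputable def v2 (cs : List (ℕ × ℕ × ℕ)) (mu V J j : ℕ) : ℤ :=
  Int.add (dM V J j) (adjX cs mu (Nat.succ (Nat.mul 2 j)))

noncomputable def gam (a b ee : ℕ) (e p q : ℤ) : ℕ :=
  Nat.succ (Nat.div (Int.toNat (Int.sub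
    (Int.ofNat (Nat.add (Nat.mul b (Nat.mul (Int.natAbs p) (Int.natAbs p)))
      (Nat.mul a (Nat.mul (Int.natAbs q) (Int.natAbs q)))))
    (Int.mul (Int.ofNat 2) (Int.mul e (Int.mul p q))))) (Nat.mul 4 (Nat.sub (Nat.mul a b) ee)))

noncomputable def gm (cs : List (ℕ × ℕ × ℕ)) (x mu T S U V J j : ℕ) : ℕ :=
  gam (aN x mu T J j) (bN x mu T J j) (e2 S J j) (dM S J j) (v1 cs mu U J j) (v2 cs mu V J j)

theorem gam_ok (a b : ℕ) (e p q : ℤ) (h : e.natAbs * e.natAbs < a * b) (X Y α : ℝ) :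
    0 ≤ a * X ^ 2 + b * Y ^ 2 + 2 * e * (X * Y) - α * p * X - α * q * Y +
      gam a b (e.natAbs * e.natAbs) e p q * α ^ 2 := by
  set G := gam a b (e.natAbs * e.natAbs) e p q with hG
  set D : ℕ := a * b - e.natAbs * e.natAbs with hD
  have hD0 : 0 < D := by omega
  have hD1 : (D : ℤ) = a * b - e * e := by
    rw [hD, Nat.cast_sub h.le, Nat.cast_mul, Nat.cast_mul, Int.natAbs_mul_self']
  have ha : 0 < a := by
    rcases Nat.eq_zero_or_pos a with h0 | h0
    · rw [h0] at h; simp at h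
    · exact h0
  have h1 : (b : ℤ) * (p * p) + a * (q * q) - 2 * (e * (p * q)) ≤ G * (4 * D) := by
    set N : ℤ := (b : ℤ) * (p * p) + a * (q * q) - 2 * (e * (p * q)) with hN
    have e1 : G = N.toNat / (4 * D) + 1 := by
      rw [hG, hN, ← Int.natAbs_mul_self' p, ← Int.natAbs_mul_self' q]; rfl
    have h2 := Nat.lt_div_mul_add (a := N.toNat) (b := 4 * D) (by omega)
    have h3 : N.toNat ≤ G * (4 * D) := by rw [e1]; nlinarith
    have h4 : N ≤ N.toNat := Int.self_le_toNat N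
    have h5 : ((N.toNat : ℕ) : ℤ) ≤ ((G * (4 * D) : ℕ) : ℤ) := by exact_mod_cast h3
    push_cast at h5
    omega
  have h2 : (b : ℝ) * (p * p) + a * (q * q) - 2 * (e * (p * q)) ≤ G * (4 * D) := by
    exact_mod_cast h1
  have h3 : (D : ℝ) = a * b - e * e := by exact_mod_cast hD1
  have h4 : (0 : ℝ) < a := by exact_mod_cast ha
  have h5 : (0 : ℝ) < D := by exact_mod_cast hD0
  have key : 4 * D * a * (a * X ^ 2 + b * Y ^ 2 + 2 * e * (X * Y) - α * p * X - α * q * Y +
      G * α ^ 2) = 4 * D * (a * X + e * Y - α * p / 2) ^ 2 +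
      (2 * D * Y - α * (a * q - e * p)) ^ 2 +
      a * α ^ 2 * (G * (4 * D) - ((b : ℝ) * (p * p) + a * (q * q) - 2 * (e * (p * q)))) := by
    rw [h3]; ring
  have h6 : 0 ≤ 4 * D * a * (a * X ^ 2 + b * Y ^ 2 + 2 * e * (X * Y) - α * p * X - α * q * Y +
      G * α ^ 2) := by
    rw [key]
    have := sub_nonneg.2 h2
    positivity
  exact nonneg_of_mul_nonneg_right h6 (by positivity) |> fun h => by
    by_contra hc
    have := mul_neg_of_pos_of_neg (show (0 : ℝ) < 4 * D * a by positivity) (not_le.1 hc)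
    linarith

/-- The variables that are boxed: `α / g` and the moments. -/
noncomputable def xv (g α : ℝ) (C S : ℕ → ℝ) (v : ℕ) : ℝ :=
  if v = 0 then α / g else if v % 2 = 0 then C (v / 2) else S (v / 2)

def InB (α x : ℝ) (b : ℕ × ℕ) : Prop :=
  ((b.1 : ℝ) - 1024) * α ≤ 1024 * x ∧ 1024 * x ≤ ((b.2 : ℝ) - 1024) * α

def Box (g α : ℝ) (C S : ℕ → ℝ) (cs : List (ℕ × ℕ × ℕ)) : Prop :=
  ∀ h ∈ cs, InB α (xv g α C S h.1) h.2

theorem look_ok {g n α C S} (hm : Mom g n α C S) (hg : 2 ≤ g) {cs : List (ℕ × ℕ × ℕ)}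
    (hb : Box g α C S cs) (v : ℕ) : InB α (xv g α C S v) (look cs v) := by
  induction cs with
  | nil =>
    have h0 : 0 ≤ α := (abs_nonneg _).trans (hm.hC 0)
    have : |xv g α C S v| ≤ α := by
      unfold xv
      split_ifs
      · rw [abs_of_nonneg (by positivity)]; exact div_le_self h0 (by linarith)
      · exact hm.hC _
      · exact hm.hS _
    have := abs_le.1 this
    change InB _ _ (0, 2048)
    constructor <;> push_cast <;> linarith [this.1, this.2]
  | cons h t ih =>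
    change InB _ _ (cond (Nat.beq h.1 v) h.2 (look t v))
    cases hh : Nat.beq h.1 v
    · exact ih fun a ha => hb a (List.mem_cons_of_mem _ ha)
    · rw [← Nat.eq_of_beq_eq_true hh]; exact hb h List.mem_cons_self

theorem adj_ok (cs : List (ℕ × ℕ × ℕ)) (mu v : ℕ) (α x : ℝ) (h0 : 0 ≤ α)
    (h : InB α x (look cs v)) :
    (adjL mu v : ℝ) * x ^ 2 - α * adjX cs mu v * x + adjM cs mu v * α ^ 2 ≤ 0 := by
  unfold adjL adjX adjM
  cases Nat.ble v 29
  · simp
  · simp only [cond_true, Int.subNatNat_eq_coe, Nat.add_eq, Nat.mul_eq]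
    push_cast
    obtain ⟨h1, h2⟩ := h
    set l : ℝ := ((look cs v).1 : ℝ)
    set u : ℝ := ((look cs v).2 : ℝ)
    have a1 := mul_nonneg (Nat.cast_nonneg (α := ℝ) (mg mu v 0))
      (mul_nonneg (sub_nonneg.2 h1) (sub_nonneg.2 h2))
    have a2 := mul_nonneg (Nat.cast_nonneg (α := ℝ) (mg mu v 32)) (mul_nonneg h0 (sub_nonneg.2 h1))
    have a3 := mul_nonneg (Nat.cast_nonneg (α := ℝ) (mg mu v 64)) (mul_nonneg h0 (sub_nonneg.2 h2))
    linarith

/-- The final numerical conditions at a leaf. -/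
def Fin4 (l u t0 t1 M P W o : ℤ) : Prop :=
  0 ≤ l ∧ l < u ∧ 0 < t0 * M - 4 * (2048 - l) * 4294967296 ∧ 0 < t1 * M - 4 * (2048 - u) * 4294967296 ∧
  t0 * W ≤ 128 * (t0 * M - 4 * (2048 - l) * 4294967296) ∧
  t1 * W ≤ 128 * (t1 * M - 4 * (2048 - u) * 4294967296) ∧
  448 * (t0 * t0) * P + 29360128 * 4294967296 * t0 * o ≤
    (20971520 - 10 * (l * l)) * (t0 * M - 4 * (2048 - l) * 4294967296) * 4294967296 ∧
  448 * (t1 * t1) * P + 29360128 * 4294967296 * t1 * o ≤
    (20971520 - 10 * (u * u)) * (t1 * M - 4 * (2048 - u) * 4294967296) * 4294967296 ∧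
  448 * (t0 * t0 + 2 * (t0 * t1)) * P + 29360128 * 4294967296 * (2 * t0 + t1) * o ≤
    ((20971520 - 10 * (l * l)) * (t1 * M - 4 * (2048 - u) * 4294967296) +
      2 * (20971520 - 10 * (l * u)) * (t0 * M - 4 * (2048 - l) * 4294967296)) * 4294967296 ∧
  448 * (t1 * t1 + 2 * (t0 * t1)) * P + 29360128 * 4294967296 * (2 * t1 + t0) * o ≤
    ((20971520 - 10 * (u * u)) * (t0 * M - 4 * (2048 - l) * 4294967296) +
      2 * (20971520 - 10 * (l * u)) * (t1 * M - 4 * (2048 - u) * 4294967296)) * 4294967296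

instance instDecFin4 (l u t0 t1 M P W o : ℤ) : Decidable (Fin4 l u t0 t1 M P W o) := by
  unfold Fin4; infer_instance

theorem fin4_ok (l u t0 t1 M P W o : ℤ) (h : Fin4 l u t0 t1 M P W o) (ht0 : 0 ≤ t0) (ht1 : 0 ≤ t1)
    (g n α : ℝ) (hg : 2 ≤ g) (hn : 0 ≤ n) (hα : 0 < α)
    (hl : l * α ≤ 1024 * (α / g)) (hu : 1024 * (α / g) ≤ u * α)
    (main : ∀ τ : ℝ, 0 ≤ τ → τ * M * α ^ 2 ≤
      τ * α * W + (2 * g - 1) * α ^ 2 + τ ^ 2 * n * P / 4 + τ * (4 * g * n * o)) :
    α ^ 2 ≤ (20 * g - 10 / g) / 7 * n + 128 * α := by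
  obtain ⟨-, h1, h2, h3, h4, h5, h6, h7, h8, h9⟩ := h
  have g0 : 0 < g := by linarith
  set s : ℝ := 1024 / g with hs
  have hl' : (l : ℝ) ≤ s := by
    have : l * α ≤ s * α := by rw [hs]; convert hl using 1; ring
    exact le_of_mul_le_mul_right this hα
  have hu' : s ≤ (u : ℝ) := by
    have : s * α ≤ u * α := by rw [hs]; convert hu using 1; ring
    exact le_of_mul_le_mul_right this hα
  have r1 : (l : ℝ) < u := by exact_mod_cast h1
  set q : ℝ := (s - l) / (u - l) with hq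
  have q0 : 0 ≤ q := div_nonneg (by linarith) (by linarith)
  have q1 : 0 ≤ 1 - q := by
    rw [sub_nonneg, hq, div_le_one (by linarith)]; linarith
  have hsq : s = (1 - q) * l + q * u := by
    have : (u : ℝ) - l ≠ 0 := by linarith
    rw [hq]; field_simp; ring
  clear_value q
  set El : ℝ := t0 * M - 4 * (2048 - l) * 4294967296 with hEl
  set Eu : ℝ := t1 * M - 4 * (2048 - u) * 4294967296 with hEu
  have c2 : 0 < El := by rw [hEl]; exact_mod_cast h2
  have c3 : 0 < Eu := by rw [hEu]; exact_mod_cast h3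
  have c4 : t0 * W ≤ 128 * El := by rw [hEl]; exact_mod_cast h4
  have c5 : t1 * W ≤ 128 * Eu := by rw [hEu]; exact_mod_cast h5
  have c6 : (448 * (t0 * t0) * P + 29360128 * 4294967296 * t0 * o : ℝ) ≤
    (20971520 - 10 * (l * l)) * El * 4294967296 := by rw [hEl]; exact_mod_cast h6
  have c7 : (448 * (t1 * t1) * P + 29360128 * 4294967296 * t1 * o : ℝ) ≤
    (20971520 - 10 * (u * u)) * Eu * 4294967296 := by rw [hEu]; exact_mod_cast h7
  have c8 : (448 * (t0 * t0 + 2 * (t0 * t1)) * P + 29360128 * 4294967296 * (2 * t0 + t1) * o : ℝ) ≤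
    ((20971520 - 10 * (l * l)) * Eu + 2 * (20971520 - 10 * (l * u)) * El) * 4294967296 := by
    rw [hEl, hEu]; exact_mod_cast h8
  have c9 : (448 * (t1 * t1 + 2 * (t0 * t1)) * P + 29360128 * 4294967296 * (2 * t1 + t0) * o : ℝ) ≤
    ((20971520 - 10 * (u * u)) * El + 2 * (20971520 - 10 * (l * u)) * Eu) * 4294967296 := by
    rw [hEl, hEu]; exact_mod_cast h9
  set t : ℝ := (1 - q) * t0 + q * t1 with ht
  have t0' : (0 : ℝ) ≤ t0 := by exact_mod_cast ht0
  have t1' : (0 : ℝ) ≤ t1 := by exact_mod_cast ht1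
  have tn : 0 ≤ t := by positivity
  set E : ℝ := (1 - q) * El + q * Eu with hE
  have E0 : 0 < E := by
    rcases q0.eq_or_lt with h | h
    · rw [hE, ← h]; simpa using c2
    · positivity
  have hE2 : E = t * M - 4 * (2048 - s) * 4294967296 := by
    rw [hE, hEl, hEu, ht, hsq]; ring
  have d1 : t * W ≤ 128 * E := by
    have a1 := mul_le_mul_of_nonneg_left c4 q1
    have a2 := mul_le_mul_of_nonneg_left c5 q0
    rw [ht, hE]; linarith
  have d2 : 448 * (t * t) * P + 29360128 * 4294967296 * t * o ≤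
      (20971520 - 10 * (s * s)) * E * 4294967296 := by
    have a1 := mul_le_mul_of_nonneg_left c6 (show 0 ≤ (1 - q) ^ 3 by positivity)
    have a2 := mul_le_mul_of_nonneg_left c7 (show 0 ≤ q ^ 3 by positivity)
    have a3 := mul_le_mul_of_nonneg_left c8 (show 0 ≤ (1 - q) ^ 2 * q by positivity)
    have a4 := mul_le_mul_of_nonneg_left c9 (show 0 ≤ (1 - q) * q ^ 2 by positivity)
    have := add_le_add (add_le_add a1 a2) (add_le_add a3 a4)
    rw [ht, hE, hsq]
    calc _ = _ := by ring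
      _ ≤ _ := this
      _ = _ := by ring
  have m1 := main (g * t / (4096 * 4294967296)) (by positivity)
  have gs : g * s = 1024 := by rw [hs]; field_simp
  have e3 : (20 * g - 10 / g) / 7 = g * (20971520 - 10 * (s * s)) / (7 * 1048576) := by
    rw [hs]; field_simp; ring
  have m2 : g * E * α ^ 2 ≤ g * (t * W) * α + g ^ 2 * n *
      (448 * (t * t) * P + 29360128 * 4294967296 * t * o) / (7 * 1048576 * 4294967296) := by
    have e4 : g * E = g * t * M - (2 * g - 1) * (4096 * 4294967296) := by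
      rw [hE2]; linear_combination (4 * 4294967296) * gs
    rw [e4]; linarith
  have m3 : g * E * α ^ 2 ≤ g * E * ((20 * g - 10 / g) / 7 * n + 128 * α) := by
    have a1 := mul_le_mul_of_nonneg_left d1 (show 0 ≤ g * α by positivity)
    have a2 := mul_le_mul_of_nonneg_left d2 (show 0 ≤ g ^ 2 * n by positivity)
    rw [e3]; linarith
  exact le_of_mul_le_mul_left m3 (by positivity)

noncomputable def leaf2 (cs : List (ℕ × ℕ × ℕ)) (J t0 t1 x mu T S U V : ℕ) : Bool :=
  cond (allB (fun j => Nat.blt (e2 S J j) (Nat.mul (aN x mu T J j) (bN x mu T J j))) J)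
    (decide (Fin4 (Int.subNatNat (look cs 0).1 1024) (Int.subNatNat (look cs 0).2 1024)
      (Int.ofNat t0) (Int.ofNat t1)
      (Int.add (Int.subNatNat (Nat.add (kk x 0) (dec T J))
        (Nat.add (dec U J) (sumN (gm cs x mu T S U V J) J)))
        (sumZ (fun j => Int.add (adjM cs mu (Nat.mul 2 j)) (adjM cs mu (Nat.succ (Nat.mul 2 j)))) 14))
      (Int.ofNat (Nat.add (Nat.mul 2 (Nat.mul (kk x 0) (kk x 0)))
        (sumN (fun j => Nat.mul (kk x j) (kk x j)) J)))
      (Int.ofNat (Nat.add (kk x 0) (sumN (kk x) J)))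
      (Int.subNatNat (dec T J) 9223372036854775808))) false

/-- The check performed at a leaf. -/
noncomputable def leaf (cs : List (ℕ × ℕ × ℕ)) (n t0 t1 x mu : ℕ) : Bool :=
  cond (Nat.ble 13 n) (cond (Nat.ble n 127) (leaf2 cs (Nat.succ n) t0 t1 x mu
    (enc (kT x 0 (Nat.succ n)) (Nat.add (Nat.succ n) (Nat.succ n)))
    (enc (kS x 0 (Nat.succ n)) (Nat.add (Nat.succ n) (Nat.succ n)))
    (enc (kUR x n) (Nat.add (Nat.succ n) (Nat.succ n)))
    (enc (kUI x n) (Nat.add (Nat.succ n) (Nat.succ n)))) false) false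

def Sound (cs : List (ℕ × ℕ × ℕ)) : Prop :=
  ∀ (g : ℕ) (n α : ℝ) (C S : ℕ → ℝ), Mom g n α C S → (2 : ℝ) ≤ g → 0 ≤ n → 0 < α →
    Box g α C S cs → α ^ 2 ≤ (20 * (g : ℝ) - 10 / g) / 7 * n + 128 * α

theorem freq_ok {g n α C S} (hm : Mom g n α C S) (hg : 2 ≤ g) {cs : List (ℕ × ℕ × ℕ)}
    (hb : Box g α C S cs) (x mu T S' U V J j : ℕ) (hj : j ≠ 0)
    (h : Nat.blt (e2 S' J j) (Nat.mul (aN x mu T J j) (bN x mu T J j)) = true) :
    ((adjM cs mu (2 * j) : ℝ) + adjM cs mu (2 * j + 1) - gm cs x mu T S' U V J j) * α ^ 2 ≤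
      kk x j * (C j ^ 2 + S j ^ 2) +
      (((dP T J j : ℝ) - 2 ^ 64) * (C j ^ 2 - S j ^ 2) - 2 * (-(dM S' J j : ℝ)) * (C j * S j)) -
      α * (((dP U J j : ℝ) - 2 ^ 64) * C j - (-(dM V J j : ℝ)) * S j) := by
  have h0 : 0 ≤ α := (abs_nonneg _).trans (hm.hC 0)
  have h1 : (dM S' J j).natAbs * (dM S' J j).natAbs < aN x mu T J j * bN x mu T J j :=
    Eq.mp Nat.blt_eq h
  have h2 := gam_ok _ _ _ (v1 cs mu U J j) (v2 cs mu V J j) h1 (C j) (S j) α
  have ha : 0 < aN x mu T J j := by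
    rcases Nat.eq_zero_or_pos (aN x mu T J j) with h0 | h0
    · rw [h0] at h1; simp at h1
    · exact h0
  have hb' : 0 < bN x mu T J j := by
    rcases Nat.eq_zero_or_pos (bN x mu T J j) with h0 | h0
    · rw [h0] at h1; simp at h1
    · exact h0
  have ea : (aN x mu T J j : ℝ) = kk x j + adjL mu (2 * j) + dP T J j - 2 ^ 64 := by
    have : aN x mu T J j + 2 ^ 64 = kk x j + adjL mu (2 * j) + dP T J j := by
      change kk x j + adjL mu (2 * j) + dP T J j - 18446744073709551616 + 2 ^ 64 = _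
      change 0 < kk x j + adjL mu (2 * j) + dP T J j - 18446744073709551616 at ha
      omega
    have : ((aN x mu T J j + 2 ^ 64 : ℕ) : ℝ) = (kk x j + adjL mu (2 * j) + dP T J j : ℕ) := by
      rw [this]
    push_cast at this; linarith
  have eb : (bN x mu T J j : ℝ) = kk x j + adjL mu (2 * j + 1) + 2 ^ 64 - dP T J j := by
    have : bN x mu T J j + dP T J j = kk x j + adjL mu (2 * j + 1) + 2 ^ 64 := by
      change kk x j + adjL mu (2 * j + 1) + 18446744073709551616 - dP T J j + dP T J j = _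
      change 0 < kk x j + adjL mu (2 * j + 1) + 18446744073709551616 - dP T J j at hb'
      omega
    have : ((bN x mu T J j + dP T J j : ℕ) : ℝ) = (kk x j + adjL mu (2 * j + 1) + 2 ^ 64 : ℕ) := by
      rw [this]
    push_cast at this; linarith
  have e1 : (v1 cs mu U J j : ℝ) = dP U J j - 2 ^ 64 + adjX cs mu (2 * j) := by
    have : v1 cs mu U J j = (dP U J j : ℤ) - 2 ^ 64 + adjX cs mu (2 * j) := by
      unfold v1; rw [Int.subNatNat_eq_coe]; rfl
    rw [this]; push_cast; ring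
  have e2' : (v2 cs mu V J j : ℝ) = dM V J j + adjX cs mu (2 * j + 1) := by
    have : v2 cs mu V J j = dM V J j + adjX cs mu (2 * j + 1) := rfl
    rw [this]; push_cast; ring
  have a1 := adj_ok cs mu (2 * j) α _ h0 (look_ok hm hg hb (2 * j))
  have a2 := adj_ok cs mu (2 * j + 1) α _ h0 (look_ok hm hg hb (2 * j + 1))
  have x1 : xv g α C S (2 * j) = C j := by
    unfold xv; rw [if_neg (by omega), if_pos (by omega)]; congr 1; omega
  have x2 : xv g α C S (2 * j + 1) = S j := by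
    unfold xv; rw [if_neg (by omega), if_neg (by omega)]; congr 1; omega
  rw [x1] at a1; rw [x2] at a2
  change 0 ≤ _ + (gm cs x mu T S' U V J j : ℝ) * α ^ 2 at h2
  rw [ea, eb, e1, e2'] at h2
  linarith

theorem dM_eq (T J j : ℕ) : -(dM T J j : ℝ) = (dec T (J + j) : ℝ) - dec T (J - j) := by
  have : dM T J j = (dec T (J - j) : ℤ) - dec T (J + j) := Int.subNatNat_eq_coe
  rw [this]; push_cast; ring

theorem dP_eq (T J j : ℕ) : (dP T J j : ℝ) = (dec T (J + j) : ℝ) + dec T (J - j) := by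
  have : dP T J j = dec T (J + j) + dec T (J - j) := rfl
  rw [this]; push_cast; ring

theorem leaf2_ok (cs : List (ℕ × ℕ × ℕ)) (J t0 t1 x mu T S' U V : ℕ) (m1 : 14 ≤ J) (m2 : J ≤ 128)
    (h : leaf2 cs J t0 t1 x mu T S' U V = true)
    (p1 : ∀ φ : ℝ, 0 ≤ ((dec T J : ℝ) - 2 ^ 63) + ∑ j ∈ range J,
      (((dec T (J + (j + 1)) : ℝ) + dec T (J - (j + 1)) - 2 ^ 64) * Real.cos ((j + 1 : ℕ) * φ) -
        ((dec S' (J + (j + 1)) : ℝ) - dec S' (J - (j + 1))) * Real.sin ((j + 1 : ℕ) * φ)))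
    (p2 : ∀ φ : ℝ, 0 ≤ Real.sin φ → 0 ≤ ((dec U J : ℝ) - 2 ^ 63) + ∑ j ∈ range J,
      (((dec U (J + (j + 1)) : ℝ) + dec U (J - (j + 1)) - 2 ^ 64) * Real.cos ((j + 1 : ℕ) * φ) -
        ((dec V (J + (j + 1)) : ℝ) - dec V (J - (j + 1))) * Real.sin ((j + 1 : ℕ) * φ))) :
    Sound cs := by
  intro g n α C S hm hg hn hα hb
  obtain ⟨hall, h⟩ := cond_imp _ _ h
  replace h := of_decide_eq_true h
  have hf := fun j hj => freq_ok hm hg hb x mu T S' U V J (j + 1) (by omega) (allB_eq _ _ hall j hj)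
  have hsum := sum_le_sum fun j (hj : j ∈ range J) => hf j (mem_range.1 hj)
  have hadd := hm.add J (by omega) ((dec T J : ℝ) - 2 ^ 63) (fun j => (dP T J j : ℝ) - 2 ^ 64)
    (fun j => -(dM S' J j : ℝ)) (fun φ => by simp only [dM_eq, dP_eq]; exact p1 φ)
  have hlin := hm.lin J ((dec U J : ℝ) - 2 ^ 63) (fun j => (dP U J j : ℝ) - 2 ^ 64)
    (fun j => -(dM V J j : ℝ)) (fun φ hφ => by simp only [dM_eq, dP_eq]; exact p2 φ hφ)
  have hl := look_ok hm hg hb 0
  refine fin4_ok _ _ _ _ _ _ _ _ h (Int.natCast_nonneg _) (Int.natCast_nonneg _) g n α hg hn hα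
    ?_ ?_ fun τ hτ => ?_
  · rw [Int.subNatNat_eq_coe]; push_cast; simpa [xv] using hl.1
  · rw [Int.subNatNat_eq_coe]; push_cast; simpa [xv] using hl.2
  · have hdif := hm.dif J (by omega) (fun j => (kk x j : ℝ)) τ
    have e14 : ∑ j ∈ range 14, ((adjM cs mu (2 * (j + 1)) : ℝ) + adjM cs mu (2 * (j + 1) + 1)) =
        ∑ j ∈ range J, ((adjM cs mu (2 * (j + 1)) : ℝ) + adjM cs mu (2 * (j + 1) + 1)) := by
      refine sum_subset (range_subset_range.2 (by omega)) fun j _ hj => ?_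
      have hj' : ¬ j < 14 := fun h => hj (mem_range.2 h)
      have z : ∀ v, 29 < v → adjM cs mu v = 0 := fun v hv => by
        unfold adjM
        cases hv' : Nat.ble v 29
        · rfl
        · have := Nat.le_of_ble_eq_true hv'; omega
      rw [z _ (by omega), z _ (by omega)]; simp
    simp only [Int.subNatNat_eq_coe, Nat.add_eq, Nat.mul_eq, Nat.succ_eq_add_one, sumN_eq, sumZ_eq,
      Int.ofNat_eq_natCast, show ∀ a b : ℤ, Int.add a b = a + b from fun _ _ => rfl]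
    push_cast
    rw [e14]
    rw [← sum_mul, sum_sub_distrib, sum_sub_distrib, sum_add_distrib (f := fun j => (kk x (j + 1) : ℝ) * _),
      ← mul_sum] at hsum
    have b1 := mul_le_mul_of_nonneg_left hsum hτ
    have b2 := mul_le_mul_of_nonneg_left hadd hτ
    have b3 := mul_nonneg hτ (mul_nonneg hα.le hlin)
    simp only [← sq]
    linarith

theorem leaf_ok (cs : List (ℕ × ℕ × ℕ)) (m t0 t1 x mu : ℕ) (h : leaf cs m t0 t1 x mu = true) :
    Sound cs := by
  obtain ⟨h13, h⟩ := cond_imp _ _ h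
  obtain ⟨h127, h⟩ := cond_imp _ _ h
  have m1 : 13 ≤ m := Nat.le_of_ble_eq_true h13
  have m2 : m ≤ 127 := Nat.le_of_ble_eq_true h127
  refine leaf2_ok cs (m + 1) t0 t1 x mu _ _ _ _ (by omega) (by omega) h (fun φ => ?_) fun φ hφ => ?_
  · obtain ⟨F, G, a, b, c⟩ := sq_rep x 0 (m + 1) (by omega)
    obtain ⟨r, r0, hr⟩ := c φ
    exact r0.trans_eq
      (fold_rep (a.mono le_rfl (by norm_num)) (b.mono le_rfl (by norm_num)) φ r hr)
  · obtain ⟨F, G, a, b, c⟩ := half_rep x m (by omega)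
    obtain ⟨r, r0, hr⟩ := c φ hφ
    exact r0.trans_eq (fold_rep a b φ r hr)

/-- Branch-and-bound trees. -/
inductive Tr where
  | lf (n t0 t1 x mu : ℕ) : Tr
  | gp (G : ℕ) : Tr
  | nd (v z : ℕ) (l r : Tr) : Tr

/-- The box for `1 / g` contains no reciprocal of an integer. -/
noncomputable def gap (cs : List (ℕ × ℕ × ℕ)) (G : ℕ) : Bool :=
  cond (Nat.blt (Nat.mul 1024 (Nat.add G 2)) (Nat.mul (look cs 0).1 (Nat.succ G)))
    (Nat.blt (Nat.mul (look cs 0).2 G) (Nat.mul 1024 (Nat.succ G))) false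

theorem gap_ok (cs : List (ℕ × ℕ × ℕ)) (G : ℕ) (h : gap cs G = true) : Sound cs := by
  intro g n α C S hm hg hn hα hb
  exfalso
  obtain ⟨h1, h2⟩ := cond_imp _ _ h
  have h3 : 1024 * (G + 2) < (look cs 0).1 * (G + 1) := Eq.mp Nat.blt_eq h1
  have h4 : (look cs 0).2 * G < 1024 * (G + 1) := Eq.mp Nat.blt_eq h2
  have h5 : (1024 : ℝ) * (G + 2) < (look cs 0).1 * (G + 1) := by exact_mod_cast h3
  have h6 : ((look cs 0).2 : ℝ) * G < 1024 * (G + 1) := by exact_mod_cast h4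
  obtain ⟨a, b⟩ := look_ok hm hg hb 0
  have e : xv g α C S 0 = α / g := by simp [xv]
  have g0 : (0 : ℝ) < g := by linarith
  rw [e, ← mul_div_assoc] at a b
  rw [le_div_iff₀ g0] at a
  rw [div_le_iff₀ g0] at b
  set l : ℝ := ((look cs 0).1 : ℝ) - 1024 with hl
  set u : ℝ := ((look cs 0).2 : ℝ) - 1024 with hu
  have a' : l * g ≤ 1024 := le_of_mul_le_mul_right (by linarith) hα
  have b' : 1024 ≤ u * g := le_of_mul_le_mul_right (by linarith) hα
  have c1 : 1024 < l * (G + 1) := by rw [hl]; linarith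
  have c2 : u * G < 1024 := by rw [hu]; linarith
  have G0 : (0 : ℝ) ≤ G := Nat.cast_nonneg _
  have l0 : 0 < l := by
    by_contra hc
    have := mul_nonpos_of_nonpos_of_nonneg (not_lt.1 hc) (show (0 : ℝ) ≤ G + 1 by linarith)
    linarith
  have u0 : 0 < u := by
    by_contra hc
    have := mul_nonpos_of_nonpos_of_nonneg (not_lt.1 hc) g0.le
    linarith
  have d1 : (g : ℝ) < G + 1 := lt_of_mul_lt_mul_left (by linarith) l0.le
  have d2 : (G : ℝ) < g := lt_of_mul_lt_mul_left (by linarith) u0.le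
  have d3 : g < G + 1 := by exact_mod_cast d1
  have d4 : G < g := by exact_mod_cast d2
  omega

noncomputable def chk (t : Tr) : List (ℕ × ℕ × ℕ) → Bool :=
  Tr.rec (motive := fun _ => List (ℕ × ℕ × ℕ) → Bool)
    (fun n t0 t1 x mu cs => leaf cs n t0 t1 x mu) (fun G cs => gap cs G)
    (fun v z _ _ hl hr cs =>
      cond (hl ((v, (look cs v).1, z) :: cs)) (hr ((v, z, (look cs v).2) :: cs)) false) t

theorem split (cs : List (ℕ × ℕ × ℕ)) (v z l u : ℕ) (hl : look cs v = (l, u))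
    (h1 : Sound ((v, l, z) :: cs)) (h2 : Sound ((v, z, u) :: cs)) : Sound cs := by
  intro g n α C S hm hg hn hα hb
  have h := look_ok hm hg hb v
  rw [hl] at h
  rcases le_total (1024 * xv g α C S v) (((z : ℝ) - 1024) * α) with h3 | h3
  · refine h1 g n α C S hm hg hn hα fun a ha => ?_
    rcases List.mem_cons.1 ha with rfl | ha
    · exact ⟨h.1, h3⟩
    · exact hb a ha
  · refine h2 g n α C S hm hg hn hα fun a ha => ?_
    rcases List.mem_cons.1 ha with rfl | ha
    · exact ⟨h3, h.2⟩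
    · exact hb a ha

theorem chk_ok (t : Tr) : ∀ cs, chk t cs = true → Sound cs := by
  induction t with
  | lf n t0 t1 x mu => exact fun cs h => leaf_ok cs n t0 t1 x mu h
  | gp G => exact fun cs h => gap_ok cs G h
  | nd v z l r hl hr =>
    intro cs h
    obtain ⟨h2, h1⟩ := cond_imp (chk l ((v, (look cs v).1, z) :: cs))
      (chk r ((v, z, (look cs v).2) :: cs)) h
    exact split cs v z _ _ rfl (hl _ h2) (hr _ h1)

end Pool.Agent.P.MP_a42607_nt
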