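import Pool.Agent.P.MP_a42607_nt.Chk

namespace Pool.Agent.P.MP_a42607_nt

open Finset Real

theorem of_mom (ha : Sound [(0, 1024, 1152), (2, 1024, 2048)])
    (hb : Sound [(0, 1170, 1195), (2, 1024, 2048)]) (he : Sound [(0, 1228, 1280), (2, 1024, 2048)])
    (hc : Sound [(0, 1365, 1366), (2, 1024, 2048)])
    (hd : Sound [(0, 1535, 1536), (2, 1024, 2048)]) (g : ℕ) (hg : 2 ≤ g) (n α : ℝ) (C S : ℕ → ℝ)
    (hm : Mom g n α C S) (hn : 0 ≤ n) (hα : 0 < α) (h1 : 0 ≤ C 1) :
    α ^ 2 ≤ (20 * g - 10 / g) / 7 * n + 128 * α := by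
  have hg' : (2 : ℝ) ≤ g := by exact_mod_cast hg
  have key : ∀ l u : ℕ, ((l : ℝ) - 1024) * g ≤ 1024 → 1024 ≤ ((u : ℝ) - 1024) * g →
      Box g α C S [(0, l, u), (2, 1024, 2048)] := by
    intro l u hl hu h hh
    have g0 : (0 : ℝ) < g := by linarith
    simp only [List.mem_cons, List.not_mem_nil, or_false] at hh
    rcases hh with rfl | rfl
    · have e : xv g α C S 0 = α / g := by simp [xv]
      change InB α (xv g α C S 0) (l, u)
      rw [e]
      constructor
      · rw [← mul_div_assoc, le_div_iff₀ g0]; nlinarith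
      · rw [← mul_div_assoc, div_le_iff₀ g0]; nlinarith
    · have e : xv g α C S 2 = C 1 := by simp [xv]
      change InB α (xv g α C S 2) (1024, 2048)
      rw [e]
      have := (abs_le.1 (hm.hC 1)).2
      constructor <;> push_cast <;> linarith
  rcases (by omega : g = 2 ∨ g = 3 ∨ (4 ≤ g ∧ g ≤ 5) ∨ (6 ≤ g ∧ g ≤ 7) ∨ 8 ≤ g) with
    h | h | h | h | h
  · exact hd g n α C S hm hg' hn hα (key _ _ (by rw [h]; norm_num) (by rw [h]; norm_num))
  · exact hc g n α C S hm hg' hn hα (key _ _ (by rw [h]; norm_num) (by rw [h]; norm_num))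
  · have a1 : (4 : ℝ) ≤ g := by exact_mod_cast h.1
    have a2 : (g : ℝ) ≤ 5 := by exact_mod_cast h.2
    exact he g n α C S hm hg' hn hα (key _ _ (by push_cast; linarith) (by push_cast; linarith))
  · have a1 : (6 : ℝ) ≤ g := by exact_mod_cast h.1
    have a2 : (g : ℝ) ≤ 7 := by exact_mod_cast h.2
    exact hb g n α C S hm hg' hn hα (key _ _ (by push_cast; linarith) (by push_cast; linarith))
  · have a1 : (8 : ℝ) ≤ g := by exact_mod_cast h
    exact ha g n α C S hm hg' hn hα (key _ _ (by push_cast; linarith) (by push_cast; linarith))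

theorem ordered_le (g : ℕ) (A : Finset ℕ)
    (hB : ∀ m : ℕ, ((A ×ˢ A).filter (fun p => p.1 ≤ p.2 ∧ p.1 + p.2 = m)).card ≤ g) (s : ℕ) :
    ((A ×ˢ A).filter (fun p => p.1 + p.2 = s)).card ≤ 2 * g := by
  set F := (A ×ˢ A).filter (fun p => p.1 ≤ p.2 ∧ p.1 + p.2 = s) with hF
  have h1 : (A ×ˢ A).filter (fun p => p.1 + p.2 = s) ⊆ F ∪ F.image Prod.swap := by
    intro p hp
    simp only [mem_filter, mem_product] at hp
    rw [mem_union]
    rcases le_total p.1 p.2 with h | h
    · left; simp only [hF, mem_filter, mem_product]; exact ⟨hp.1, h, hp.2⟩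
    · right
      refine mem_image.2 ⟨p.swap, ?_, rfl⟩
      simp only [hF, mem_filter, mem_product, Prod.fst_swap, Prod.snd_swap]
      exact ⟨⟨hp.1.2, hp.1.1⟩, h, by omega⟩
  have h2 := card_le_card h1
  have h3 := card_union_le F (F.image Prod.swap)
  have h4 : (F.image Prod.swap).card ≤ F.card := card_image_le
  have h5 : F.card ≤ g := hB s
  omega

theorem bound (ha : Sound [(0, 1024, 1152), (2, 1024, 2048)])
    (hb : Sound [(0, 1170, 1195), (2, 1024, 2048)]) (he : Sound [(0, 1228, 1280), (2, 1024, 2048)])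
    (hc : Sound [(0, 1365, 1366), (2, 1024, 2048)])
    (hd : Sound [(0, 1535, 1536), (2, 1024, 2048)]) (g n : ℕ) (hg : 2 ≤ g) (A : Finset ℕ)
    (hA : A ⊆ Finset.Icc 1 n)
    (hB : ∀ m : ℕ, ((A ×ˢ A).filter (fun p => p.1 ≤ p.2 ∧ p.1 + p.2 = m)).card ≤ g) :
    (A.card : ℝ) ≤ √((20 * g - 10 / g) / 7 * n) + 128 := by
  have hs := sqrt_nonneg ((20 * g - 10 / g) / 7 * n : ℝ)
  by_contra hc'
  rw [not_le] at hc'
  have hcard : A.card ≤ n := by simpa using card_le_card hA
  have hn : 128 < n := by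
    have : (128 : ℝ) < n := by
      have : (A.card : ℝ) ≤ n := by exact_mod_cast hcard
      linarith
    exact_mod_cast this
  have hα : (0 : ℝ) < A.card := by linarith
  have hy : ∀ a ∈ A, 1 ≤ a ∧ a ≤ n := fun a h => mem_Icc.1 (hA h)
  have ho := ordered_le g A hB
  have main : (A.card : ℝ) ^ 2 ≤ (20 * g - 10 / g) / 7 * n + 128 * A.card := by
    have m1 := mom_of_set n g hn A (fun a => a) hy (fun _ _ _ _ h => h) ho
    have m2 := mom_of_set n g hn A (fun a => n + 1 - a)
      (fun a h => by have := hy a h; omega)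
      (fun a h b h' e => by
        have := hy a (mem_coe.1 h); have := hy b (mem_coe.1 h'); simp only at e; omega)
      (fun s => le_trans (card_le_card fun p hp => by
        simp only [mem_filter, mem_product] at hp ⊢
        have := hy _ hp.1.1; have := hy _ hp.1.2
        exact ⟨hp.1, by omega⟩) (ho (2 * n + 2 - s)))
    rcases le_total 0 (∑ a ∈ A, cos ((1 : ℕ) * (π * ((a : ℝ) - 1 / 2) / n))) with h | h
    · exact of_mom ha hb he hc hd g hg n _ _ _ m1 (Nat.cast_nonneg _) hα h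
    · refine of_mom ha hb he hc hd g hg n _ _ _ m2 (Nat.cast_nonneg _) hα ?_
      have : ∑ a ∈ A, cos ((1 : ℕ) * (π * (((n + 1 - a : ℕ) : ℝ) - 1 / 2) / n)) =
          -∑ a ∈ A, cos ((1 : ℕ) * (π * ((a : ℝ) - 1 / 2) / n)) := by
        rw [← sum_neg_distrib]
        refine sum_congr rfl fun a h => ?_
        have := hy a h
        have n0 : (n : ℝ) ≠ 0 := by
          have : n ≠ 0 := by omega
          exact_mod_cast this
        rw [← cos_pi_sub, Nat.cast_sub (by omega)]
        congr 1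
        push_cast; field_simp; ring
      change 0 ≤ ∑ a ∈ A, cos ((1 : ℕ) * (π * (((n + 1 - a : ℕ) : ℝ) - 1 / 2) / n))
      rw [this]; linarith
  have hg' : (2 : ℝ) ≤ g := by exact_mod_cast hg
  have hX : (0 : ℝ) ≤ (20 * g - 10 / g) / 7 * n := by
    have : (10 : ℝ) / g ≤ 10 := div_le_self (by norm_num) (by linarith)
    have : (0 : ℝ) ≤ 20 * g - 10 / g := by linarith
    positivity
  have h2 := sq_sqrt hX
  nlinarith

end Pool.Agent.P.MP_a42607_nt
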