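import Mathlib

namespace Pool.Agent.P.MP_a42607_nt

open Finset Real

/-- The moment inequalities satisfied by the trigonometric sums of a `B₂[g]` set. -/
structure Mom (g n α : ℝ) (C S : ℕ → ℝ) : Prop where
  hC : ∀ j, |C j| ≤ α
  hS : ∀ j, |S j| ≤ α
  dif : ∀ J ≤ 128, ∀ (k : ℕ → ℝ) (τ : ℝ),
    τ * (k 0 * α ^ 2 + ∑ j ∈ range J, k (j + 1) * (C (j + 1) ^ 2 + S (j + 1) ^ 2)) ≤
      τ * α * (k 0 + ∑ j ∈ range J, k (j + 1)) + (2 * g - 1) * α ^ 2 +
        τ ^ 2 * n * (2 * k 0 ^ 2 + ∑ j ∈ range J, k (j + 1) ^ 2) / 4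
  add : ∀ J ≤ 128, ∀ (o : ℝ) (p q : ℕ → ℝ),
    (∀ φ : ℝ, 0 ≤ o + ∑ j ∈ range J,
      (p (j + 1) * cos ((j + 1 : ℕ) * φ) - q (j + 1) * sin ((j + 1 : ℕ) * φ))) →
    o * α ^ 2 + ∑ j ∈ range J, (p (j + 1) * (C (j + 1) ^ 2 - S (j + 1) ^ 2)
      - 2 * q (j + 1) * (C (j + 1) * S (j + 1))) ≤ 4 * g * n * o
  lin : ∀ J, ∀ (u : ℝ) (p q : ℕ → ℝ),
    (∀ φ : ℝ, 0 ≤ sin φ → 0 ≤ u + ∑ j ∈ range J,
      (p (j + 1) * cos ((j + 1 : ℕ) * φ) - q (j + 1) * sin ((j + 1 : ℕ) * φ))) →
    0 ≤ u * α + ∑ j ∈ range J, (p (j + 1) * C (j + 1) - q (j + 1) * S (j + 1))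

theorem orth (n : ℕ) (m : ℤ) (hm : m ≠ 0) (hm2 : |m| < 2 * n) (φ : ℝ) :
    ∑ t ∈ range (2 * n), cos (m * (π * t / n) + φ) = 0 := by
  have hn : (0 : ℤ) < n := by have := abs_nonneg m; omega
  have hn' : (n : ℂ) ≠ 0 := by
    have : n ≠ 0 := by omega
    exact_mod_cast this
  set w : ℂ := Complex.exp (m * (π / n) * Complex.I) with hw
  have h1 : w ^ (2 * n) = 1 := by
    rw [hw, ← Complex.exp_nat_mul, Complex.exp_eq_one_iff]
    refine ⟨m, ?_⟩
    push_cast; field_simp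
  have h2 : w ≠ 1 := by
    rw [hw, Ne, Complex.exp_eq_one_iff]
    rintro ⟨k, hk⟩
    have hpi : (π : ℂ) ≠ 0 := by exact_mod_cast pi_ne_zero
    have h3 : (m : ℂ) = k * (2 * n) := by
      field_simp at hk
      linear_combination hk
    have h4 : m = k * (2 * n) := by exact_mod_cast h3
    have hk0 : k ≠ 0 := by rintro rfl; simp at h4; exact hm h4
    rw [h4, abs_mul, abs_of_pos (by omega : (0 : ℤ) < 2 * n)] at hm2
    have : 1 ≤ |k| := Int.one_le_abs hk0
    nlinarith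
  have h5 : ∑ t ∈ range (2 * n), w ^ t = 0 := by
    rw [geom_sum_eq h2, h1]; simp
  have h6 : ∀ t : ℕ, cos (m * (π * t / n) + φ) = (w ^ t * Complex.exp (φ * Complex.I)).re := by
    intro t
    rw [hw, ← Complex.exp_nat_mul, ← Complex.exp_add, ← Complex.exp_ofReal_mul_I_re]
    congr 2
    push_cast; ring
  simp_rw [h6]
  rw [← Complex.re_sum, ← Finset.sum_mul, h5]; simp

theorem fib {ι : Type*} (P : Finset ι) (f : ι → ℕ) (N : ℕ) (hf : ∀ p ∈ P, f p < N) (w : ℕ → ℝ) :
    ∑ p ∈ P, w (f p) = ∑ t ∈ range N, ((P.filter (fun p => f p = t)).card : ℝ) * w t := by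
  rw [← Finset.sum_fiberwise_of_maps_to (t := range N) (g := f) (fun p hp => mem_range.2 (hf p hp))]
  refine sum_congr rfl fun t _ => ?_
  rw [sum_congr rfl (g := fun _ => w t) (fun p hp => by rw [(mem_filter.1 hp).2])]
  simp

theorem gram (n : ℕ) (j l : ℕ) (hj : j < n) (hl : l < n) :
    ∑ t ∈ range (2 * n), cos (j * (π * t / n - π)) * cos (l * (π * t / n - π)) =
      if j = l then (if j = 0 then 2 * (n : ℝ) else n) else 0 := by
  have e : ∀ t : ℕ, cos (j * (π * t / n - π)) * cos (l * (π * t / n - π)) =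
      (cos ((((j : ℤ) + l : ℤ) : ℝ) * (π * t / n) + -(((j : ℝ) + l) * π)) +
        cos ((((j : ℤ) - l : ℤ) : ℝ) * (π * t / n) + -(((j : ℝ) - l) * π))) / 2 := by
    intro t
    have a1 : (((j : ℤ) + l : ℤ) : ℝ) * (π * t / n) + -(((j : ℝ) + l) * π) =
        j * (π * t / n - π) + l * (π * t / n - π) := by push_cast; ring
    have a2 : (((j : ℤ) - l : ℤ) : ℝ) * (π * t / n) + -(((j : ℝ) - l) * π) =
        j * (π * t / n - π) - l * (π * t / n - π) := by push_cast; ring
    rw [a1, a2, cos_add, cos_sub]; ring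
  simp_rw [e]
  rw [← Finset.sum_div, sum_add_distrib]
  split_ifs with h1 h2
  · subst h1; subst h2; simp
  · subst h1
    rw [orth n _ (by omega) (by rw [abs_lt]; omega)]
    simp
  · rw [orth n _ (by omega) (by rw [abs_lt]; omega), orth n _ (by omega) (by rw [abs_lt]; omega)]
    simp

theorem parseval (n J : ℕ) (hJ : J < n) (k : ℕ → ℝ) :
    ∑ t ∈ range (2 * n), (k 0 + ∑ j ∈ range J, k (j + 1) * cos ((j + 1 : ℕ) * (π * t / n - π))) ^ 2 =
      n * (2 * k 0 ^ 2 + ∑ j ∈ range J, k (j + 1) ^ 2) := by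
  have e : ∀ ψ : ℝ, (k 0 + ∑ j ∈ range J, k (j + 1) * cos ((j + 1 : ℕ) * ψ)) ^ 2 =
      ∑ j ∈ range (J + 1), ∑ l ∈ range (J + 1), k j * k l * (cos (j * ψ) * cos (l * ψ)) := by
    intro ψ
    have : k 0 + ∑ j ∈ range J, k (j + 1) * cos ((j + 1 : ℕ) * ψ) =
        ∑ j ∈ range (J + 1), k j * cos (j * ψ) := by
      rw [sum_range_succ']; simp [add_comm]
    rw [this, sq, sum_mul_sum]
    refine sum_congr rfl fun j _ => sum_congr rfl fun l _ => by ring
  simp_rw [e]
  rw [sum_comm]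
  have e2 : ∀ j ∈ range (J + 1), ∑ t ∈ range (2 * n), ∑ l ∈ range (J + 1),
      k j * k l * (cos (j * (π * t / n - π)) * cos (l * (π * t / n - π))) =
      k j ^ 2 * (if j = 0 then 2 * (n : ℝ) else n) := by
    intro j hj
    rw [sum_comm]
    have hj' := mem_range.1 hj
    rw [sum_eq_single j]
    · rw [← mul_sum, gram n j j (by omega) (by omega)]; simp [sq]
    · intro l hl hlj
      have hl' := mem_range.1 hl
      rw [← mul_sum, gram n j l (by omega) (by omega), if_neg (Ne.symm hlj)]; simp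
    · intro h; exact absurd hj h
  rw [sum_congr rfl e2, sum_range_succ']
  simp only [Nat.add_eq_zero_iff, one_ne_zero, and_false, if_false, if_true]
  rw [← sum_mul]; ring

theorem energy (n g : ℕ) (A : Finset ℕ) (y : ℕ → ℕ) (hy : ∀ a ∈ A, 1 ≤ y a ∧ y a ≤ n)
    (hr : ∀ s, ((A ×ˢ A).filter (fun p => y p.1 + y p.2 = s)).card ≤ 2 * g) :
    ∑ t ∈ range (2 * n), (((A ×ˢ A).filter (fun p => y p.1 + n - y p.2 = t)).card : ℝ) ^ 2 ≤
      2 * g * (A.card : ℝ) ^ 2 := by
  have h1 := fib (A ×ˢ A) (fun p => y p.1 + n - y p.2) (2 * n)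
    (fun p hp => by
      have := hy _ (mem_product.1 hp).1; have := hy _ (mem_product.1 hp).2; omega)
    (fun t => (((A ×ˢ A).filter (fun p => y p.1 + n - y p.2 = t)).card : ℝ))
  simp_rw [sq]
  rw [← h1]
  have h2 : ∀ p ∈ A ×ˢ A,
      (((A ×ˢ A).filter (fun q => y q.1 + n - y q.2 = y p.1 + n - y p.2)).card : ℝ) =
      ∑ b ∈ A, ∑ b' ∈ A, if y b + y p.2 = y p.1 + y b' then (1 : ℝ) else 0 := by
    intro p hp
    rw [card_filter, sum_product]
    push_cast
    refine sum_congr rfl fun b hb => sum_congr rfl fun b' hb' => ?_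
    have := hy _ (mem_product.1 hp).1; have := hy _ (mem_product.1 hp).2
    have := hy _ hb; have := hy _ hb'
    congr 1
    apply propext; omega
  rw [sum_congr rfl h2, sum_product]
  have h3 : ∀ a ∈ A, ∑ a' ∈ A, ∑ b ∈ A, ∑ b' ∈ A, (if y b + y a' = y a + y b' then (1 : ℝ) else 0)
      ≤ 2 * g * A.card := by
    intro a _
    have : ∑ a' ∈ A, ∑ b ∈ A, ∑ b' ∈ A, (if y b + y a' = y a + y b' then (1 : ℝ) else 0) =
        ∑ b' ∈ A, (((A ×ˢ A).filter (fun p => y p.1 + y p.2 = y a + y b')).card : ℝ) := by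
      simp_rw [card_filter, sum_product]
      push_cast
      rw [sum_comm]
      rw [sum_congr rfl (fun b _ => sum_comm), sum_comm]
    rw [this]
    calc _ ≤ ∑ _b' ∈ A, (2 * g : ℝ) := sum_le_sum fun b' _ => by exact_mod_cast hr _
      _ = _ := by simp [mul_comm]
  calc _ ≤ ∑ _a ∈ A, (2 * g * A.card : ℝ) := sum_le_sum h3
    _ = _ := by simp; ring

theorem mom_of_set (n g : ℕ) (hn : 128 < n) (A : Finset ℕ) (y : ℕ → ℕ)
    (hy : ∀ a ∈ A, 1 ≤ y a ∧ y a ≤ n) (hinj : Set.InjOn y A)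
    (hr : ∀ s, ((A ×ˢ A).filter (fun p => y p.1 + y p.2 = s)).card ≤ 2 * g) :
    Mom g n A.card (fun j => ∑ a ∈ A, cos (j * (π * (y a - 1 / 2) / n)))
      (fun j => ∑ a ∈ A, sin (j * (π * (y a - 1 / 2) / n))) := by
  have hn0 : (0 : ℝ) < n := by have : 0 < n := by omega
                               exact_mod_cast this
  set θ : ℕ → ℝ := fun a => π * (y a - 1 / 2) / n with hθ
  refine ⟨fun j => ?_, fun j => ?_, fun J hJ k τ => ?_, fun J hJ o p q hpos => ?_,
    fun J u p q hpos => ?_⟩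
  · calc _ ≤ ∑ a ∈ A, |cos (j * θ a)| := abs_sum_le_sum_abs _ _
      _ ≤ ∑ _a ∈ A, (1 : ℝ) := sum_le_sum fun a _ => abs_cos_le_one _
      _ = _ := by simp
  · calc _ ≤ ∑ a ∈ A, |sin (j * θ a)| := abs_sum_le_sum_abs _ _
      _ ≤ ∑ _a ∈ A, (1 : ℝ) := sum_le_sum fun a _ => abs_sin_le_one _
      _ = _ := by simp
  · set w : ℕ → ℝ := fun t => k 0 + ∑ j ∈ range J, k (j + 1) * cos ((j + 1 : ℕ) * (π * t / n - π))
      with hw
    set d : ℕ → ℝ := fun t => (((A ×ˢ A).filter (fun p => y p.1 + n - y p.2 = t)).card : ℝ) with hd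
    have h1 := fib (A ×ˢ A) (fun p => y p.1 + n - y p.2) (2 * n)
      (fun p hp => by
        have := hy _ (mem_product.1 hp).1; have := hy _ (mem_product.1 hp).2; omega) w
    have h2 : ∑ p ∈ A ×ˢ A, w (y p.1 + n - y p.2) = k 0 * (A.card : ℝ) ^ 2 +
        ∑ j ∈ range J, k (j + 1) * ((∑ a ∈ A, cos ((j + 1 : ℕ) * θ a)) ^ 2 +
          (∑ a ∈ A, sin ((j + 1 : ℕ) * θ a)) ^ 2) := by
      have : ∀ p ∈ A ×ˢ A, w (y p.1 + n - y p.2) = k 0 + ∑ j ∈ range J, k (j + 1) *
          (cos ((j + 1 : ℕ) * θ p.1) * cos ((j + 1 : ℕ) * θ p.2) +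
            sin ((j + 1 : ℕ) * θ p.1) * sin ((j + 1 : ℕ) * θ p.2)) := by
        intro p hp
        have := hy _ (mem_product.1 hp).2
        simp only [hw]
        congr 1
        refine sum_congr rfl fun j _ => ?_
        rw [← cos_sub]
        congr 2
        rw [Nat.cast_sub (by omega)]
        simp only [hθ]; push_cast; field_simp; ring
      rw [sum_congr rfl this, sum_add_distrib, sum_comm]
      congr 1
      · simp [sq, mul_comm]
      · refine sum_congr rfl fun j _ => ?_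
        rw [← mul_sum, sum_add_distrib, sq, sq, sum_mul_sum, sum_mul_sum, sum_product, sum_product]
    have h3 : d n = A.card := by
      simp only [hd]
      congr 1
      have : (A ×ˢ A).filter (fun p => y p.1 + n - y p.2 = n) = A.diag := by
        ext p
        simp only [mem_filter, mem_product, mem_diag]
        constructor
        · rintro ⟨⟨h1, h2⟩, h3⟩
          have := hy _ h1; have := hy _ h2
          exact ⟨h1, hinj h1 h2 (by omega)⟩
        · rintro ⟨h1, h2⟩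
          have := hy _ h1
          rw [← h2]; exact ⟨⟨h1, h1⟩, by omega⟩
      rw [this, diag_card]
    have h4 : w n = k 0 + ∑ j ∈ range J, k (j + 1) := by
      simp only [hw]
      have : π * n / n - π = 0 := by field_simp; ring
      rw [this]; simp
    have h5 := parseval n J (by omega) k
    have h6 := energy n g A y hy hr
    have h7 : (d n - τ * w n / 2) ^ 2 ≤ ∑ t ∈ range (2 * n), (d t - τ * w t / 2) ^ 2 :=
      single_le_sum (f := fun t => (d t - τ * w t / 2) ^ 2) (fun t _ => sq_nonneg _)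
        (mem_range.2 (by omega))
    have h8 : ∑ t ∈ range (2 * n), (d t - τ * w t / 2) ^ 2 = ∑ t ∈ range (2 * n), d t ^ 2 -
        τ * ∑ t ∈ range (2 * n), d t * w t + τ ^ 2 / 4 * ∑ t ∈ range (2 * n), w t ^ 2 := by
      rw [mul_sum, mul_sum, ← sum_sub_distrib, ← sum_add_distrib]
      exact sum_congr rfl fun t _ => by ring
    change ∑ t ∈ range (2 * n), w t ^ 2 = _ at h5
    change ∑ t ∈ range (2 * n), d t ^ 2 ≤ _ at h6
    change _ = ∑ t ∈ range (2 * n), d t * w t at h1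
    rw [h8, ← h1, h2, h5, h3, h4] at h7
    nlinarith [sq_nonneg (τ * (k 0 + ∑ j ∈ range J, k (j + 1)))]
  · set w : ℕ → ℝ := fun t => o + ∑ j ∈ range J,
      (p (j + 1) * cos ((j + 1 : ℕ) * (π * t / n)) - q (j + 1) * sin ((j + 1 : ℕ) * (π * t / n)))
      with hw
    have h1 := fib (A ×ˢ A) (fun p => y p.1 + y p.2 - 1) (2 * n)
      (fun p hp => by
        have := hy _ (mem_product.1 hp).1; have := hy _ (mem_product.1 hp).2; omega) w
    have h2 : ∑ x ∈ A ×ˢ A, w (y x.1 + y x.2 - 1) = o * (A.card : ℝ) ^ 2 +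
        ∑ j ∈ range J, (p (j + 1) * ((∑ a ∈ A, cos ((j + 1 : ℕ) * θ a)) ^ 2 -
          (∑ a ∈ A, sin ((j + 1 : ℕ) * θ a)) ^ 2) - 2 * q (j + 1) *
          ((∑ a ∈ A, cos ((j + 1 : ℕ) * θ a)) * (∑ a ∈ A, sin ((j + 1 : ℕ) * θ a)))) := by
      have : ∀ x ∈ A ×ˢ A, w (y x.1 + y x.2 - 1) = o + ∑ j ∈ range J, (p (j + 1) *
          (cos ((j + 1 : ℕ) * θ x.1) * cos ((j + 1 : ℕ) * θ x.2) -
            sin ((j + 1 : ℕ) * θ x.1) * sin ((j + 1 : ℕ) * θ x.2)) - q (j + 1) *
          (sin ((j + 1 : ℕ) * θ x.1) * cos ((j + 1 : ℕ) * θ x.2) +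
            cos ((j + 1 : ℕ) * θ x.1) * sin ((j + 1 : ℕ) * θ x.2))) := by
        intro x hx
        have := hy _ (mem_product.1 hx).2
        simp only [hw]
        congr 1
        refine sum_congr rfl fun j _ => ?_
        have e : ((j + 1 : ℕ) : ℝ) * (π * ((y x.1 + y x.2 - 1 : ℕ) : ℝ) / n) =
            (j + 1 : ℕ) * θ x.1 + (j + 1 : ℕ) * θ x.2 := by
          rw [Nat.cast_sub (by omega)]
          simp only [hθ]; push_cast; field_simp; ring
        rw [← cos_add, ← sin_add, e]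
      rw [sum_congr rfl this, sum_add_distrib, sum_comm]
      congr 1
      · simp [sq, mul_comm]
      · refine sum_congr rfl fun j _ => ?_
        rw [sum_sub_distrib, ← mul_sum, ← mul_sum, sum_sub_distrib, sum_add_distrib, sum_product,
          sum_product, sum_product, sum_product]
        simp only [← sum_mul_sum]
        ring
    have h3 : ∑ t ∈ range (2 * n), w t = 2 * n * o := by
      simp only [hw]
      rw [sum_add_distrib, sum_comm]
      have : ∀ j ∈ range J, ∑ t ∈ range (2 * n), (p (j + 1) * cos ((j + 1 : ℕ) * (π * t / n)) -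
          q (j + 1) * sin ((j + 1 : ℕ) * (π * t / n))) = 0 := by
        intro j hj
        have hj' := mem_range.1 hj
        have a1 := orth n ((j + 1 : ℕ) : ℤ) (by omega) (by rw [abs_lt]; omega) 0
        have a2 := orth n ((j + 1 : ℕ) : ℤ) (by omega) (by rw [abs_lt]; omega) (-(π / 2))
        simp only [add_zero, Int.cast_natCast] at a1
        simp only [← sub_eq_add_neg, cos_sub_pi_div_two, Int.cast_natCast] at a2
        rw [sum_sub_distrib, ← mul_sum, ← mul_sum, a1, a2]; simp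
      rw [sum_congr rfl this]; simp
    have h4 : ∑ t ∈ range (2 * n),
        (((A ×ˢ A).filter (fun p => y p.1 + y p.2 - 1 = t)).card : ℝ) * w t ≤
        ∑ t ∈ range (2 * n), 2 * g * w t := by
      refine sum_le_sum fun t _ => mul_le_mul_of_nonneg_right ?_ (hpos _)
      have : ((A ×ˢ A).filter (fun p => y p.1 + y p.2 - 1 = t)).card ≤ 2 * g := by
        refine le_trans (card_le_card fun x hx => ?_) (hr (t + 1))
        rw [mem_filter] at hx ⊢
        have := hy _ (mem_product.1 hx.1).2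
        exact ⟨hx.1, by omega⟩
      exact_mod_cast this
    rw [← h1, h2, ← mul_sum, h3] at h4
    linarith
  · have h1 : ∀ a ∈ A, 0 ≤ u + ∑ j ∈ range J,
        (p (j + 1) * cos ((j + 1 : ℕ) * θ a) - q (j + 1) * sin ((j + 1 : ℕ) * θ a)) := by
      intro a ha
      refine hpos _ (sin_nonneg_of_nonneg_of_le_pi ?_ ?_)
      · have : (1 : ℝ) ≤ y a := by exact_mod_cast (hy a ha).1
        simp only [hθ]
        have := pi_pos
        apply div_nonneg (mul_nonneg this.le (by linarith)) hn0.le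
      · have : (y a : ℝ) ≤ n := by exact_mod_cast (hy a ha).2
        simp only [hθ]
        rw [div_le_iff₀ hn0]
        have := pi_pos
        nlinarith
    have h2 := sum_nonneg h1
    rw [sum_add_distrib, sum_comm] at h2
    simp only [sum_sub_distrib, ← mul_sum] at h2 ⊢
    simpa [mul_comm, hθ] using h2

end Pool.Agent.P.MP_a42607_nt
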